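import Pool.Agent.Helper52_CD.VFin
import Pool.Agent.Helper92_CD.All

/-!
# The Singer conjecture for virtually special groups

Let `M` be a closed aspherical manifold of dimension `n` whose fundamental group `G` is virtually
special: a subgroup of finite index of `G` is isomorphic to a subgroup of a finitely generated
right-angled Artin group or right-angled Coxeter group.  Then the Singer conjecture holds for `M`:
the `i`-th `L²`-Betti number of the universal cover of `M` is zero for all `i` with `2 i ≠ n`.

The manifold enters through the cellular chain complex of the universal cover of a finite CW complex
of dimension at most `n` which is homotopy equivalent to `M`.  This is a finite complex `C` of free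
modules over the integral group ring of `G` and a resolution of the integers.  We use Poincare
duality only with coefficients modulo two.
-/

namespace Pool.Agent.Helper52Moved.VirtuallySpecial

open Pool.Agent.Glue Pool.Agent.FB Pool.Agent.VSing

/-- Let `G` be a virtually special group and `C` a finite aspherical complex over `G` which satisfies
Poincare duality modulo two in dimension `n`.  Then the `i`-th `L²`-Betti number of `C` is zero for
all `i` with `2 i ≠ n`. -/
theorem result {G : Type} [Group G] (hG : VirtuallySpecial G) {I : Type} [Fintype I]
    (C : Cells G I) {n : ℕ} (hC : Aspherical C) (hD : Duality C n) {i : ℕ} (hi : 2 * i ≠ n) :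
    betti C i = 0 :=
  Pool.Agent.CD.Vir.special_of Pool.Agent.CD.H92.t_vir G hG I C n hC hD i hi

end Pool.Agent.Helper52Moved.VirtuallySpecial
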